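import Pool.Agent.Helper81.MH.Goals

/-! Packet MH BAD (MP_340b06_lc, for helper81). -/

set_option autoImplicit false

namespace Pool.Agent.Helper16.MH

open Set Cardinal Filter
open Pool.Agent.Helper81.SB
open Pool.Agent.Helper81.MH

theorem key (x : W → Set ℕ) (e : W → ℕ → W) (z : Set ℕ) (c : W) (v : Bool) (t t' : ℕ → Bool)
    (ht' : TypeOf x e z c t') (u : ℕ) (hu : ∀ j < u, t j = t' j)
    (hv : t u = v) (hv' : t' u ≠ v) (hfin : t u = v → (LeaveS x e z c t u).Finite) : False := by
  refine ht' (u + 1) ((hfin hv).subset ?_)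
  rintro κ ⟨hz, hκ⟩
  refine ⟨hz, fun j hj => ?_, ?_⟩
  · rw [hu j hj]
    exact hκ j (by omega)
  · have h1 := hκ u (by omega)
    unfold Dis
    intro h2
    rw [hv] at h2
    have h3 : (v = true) ↔ (t' u = true) := h2.symm.trans h1
    apply hv'
    cases h4 : t' u <;> cases h5 : v <;> simp_all

theorem goal_BAD : Goal_BAD := by
  intro x e z c v
  have h : {t : ℕ → Bool | TypeOf x e z c t ∧
      ∃ n, ∀ u, n ≤ u → t u = v → (LeaveS x e z c t u).Finite} ⊆
      ⋃ n : ℕ, ⋃ s : Fin n → Bool, {t : ℕ → Bool | TypeOf x e z c t ∧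
        (∀ u, n ≤ u → t u = v → (LeaveS x e z c t u).Finite) ∧ ∀ i : Fin n, t i = s i} := by
    rintro t ⟨ht, n, hn⟩
    rw [mem_iUnion]
    refine ⟨n, ?_⟩
    rw [mem_iUnion]
    exact ⟨fun i => t i, ht, hn, fun i => rfl⟩
  refine Countable.mono h (countable_iUnion fun n => countable_iUnion fun s => ?_)
  refine Set.Subsingleton.countable ?_
  rintro t ⟨ht, hn, hs⟩ t' ⟨ht', hn', hs'⟩
  funext u
  induction u using Nat.strong_induction_on with
  | _ u ih =>
    by_cases hu : u < n
    · exact (hs ⟨u, hu⟩).trans (hs' ⟨u, hu⟩).symm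
    · rw [not_lt] at hu
      by_contra hne
      by_cases h1 : t u = v
      · exact key x e z c v t t' ht' u ih h1 (fun h2 => hne (h1.trans h2.symm)) (hn u hu)
      · have h2 : t' u = v := by
          cases h3 : t u <;> cases h4 : t' u <;> cases h5 : v <;> simp_all
        exact key x e z c v t' t ht u (fun j hj => (ih j hj).symm) h2 h1 (hn' u hu)

end Pool.Agent.Helper16.MH
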